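import Pool.Agent.Y245.SC.Stm3

/-!
SC-SHIFT: translation invariance.
-/

set_option autoImplicit false

open Complex MeasureTheory Metric Set Filter Topology ComplexConjugate
open Pool.Agent.TH298.Sch (Sol)

namespace Pool.Agent.Y388.SC

open Pool.Agent.Y245.SC

theorem shift : S_SHIFT := by
  intro Ω lam c u G β h
  have hpre : (fun z : ℂ => z - β) '' Ω = (fun z : ℂ => z + β) ⁻¹' Ω := by
    ext z
    constructor
    · rintro ⟨w, hw, rfl⟩
      change w - β + β ∈ Ω
      rw [sub_add_cancel]; exact hw
    · intro hz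
      exact ⟨z + β, hz, by simp⟩
  have hme : MeasurableEmbedding (fun z : ℂ => z + β) := measurableEmbedding_addRight β
  have hmp : MeasurePreserving (fun z : ℂ => z + β)
      (volume.restrict ((fun z : ℂ => z - β) '' Ω)) (volume.restrict Ω) := by
    rw [hpre]
    exact (measurePreserving_add_right volume β).restrict_preimage_emb hme Ω
  have hψ : ∀ φ : ℂ → ℝ, ContDiff ℝ 1 φ → HasCompactSupport φ →
      ContDiff ℝ 1 (fun y => φ (y - β)) ∧ HasCompactSupport (fun y => φ (y - β)) ∧
      ∀ x w, fderiv ℝ (fun y => φ (y - β)) (x + β) w = fderiv ℝ φ x w := by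
    intro φ h1 h2
    refine ⟨h1.comp (by fun_prop), ?_, ?_⟩
    · have h3 : (fun x => φ (x - β)) = φ ∘ (Homeomorph.subRight β) := rfl
      rw [h3]
      exact h2.comp_homeomorph _
    · intro x w
      have h4 := congrFun (congrArg DFunLike.coe (fderiv_comp_sub (𝕜 := ℝ) (f := φ) (x := x + β) β)) w
      rw [add_sub_cancel_right] at h4
      exact h4
  refine ⟨fun x => u (x + β), fun x => G (x + β), ?_, ?_, ?_, ?_⟩
  · exact h.u2.comp_measurePreserving hmp
  · exact h.G2.comp_measurePreserving hmp
  · intro φ h1 h2 v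
    obtain ⟨k1, k2, k3⟩ := hψ φ h1 h2
    have e := h.h1 _ k1 k2 v
    have e1 := hmp.integral_comp hme
      (fun y => (u y - c) * fderiv ℝ (fun y => φ (y - β)) y v)
    have e2 := hmp.integral_comp hme (fun y => inner ℝ (G y) v * φ (y - β))
    rw [← e1, ← e2] at e
    simp only [k3, add_sub_cancel_right] at e
    exact e
  · intro φ h1 h2
    obtain ⟨k1, k2, k3⟩ := hψ φ h1 h2
    have e := h.h2 _ k1 k2
    have e1 := hmp.integral_comp hme
      (fun y => fderiv ℝ (fun y => φ (y - β)) y (G y))
    have e2 := hmp.integral_comp hme (fun y => u y * φ (y - β))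
    rw [← e1, ← e2] at e
    simp only [k3, add_sub_cancel_right] at e
    exact e

end Pool.Agent.Y388.SC
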